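import Pool.Agent.Helper8.KT.Sheet2
import Pool.Agent.Helper94.SR.Emb

/-! Project KT, row DC0: the dual of `c_0(ℕ; Z)` is separable if the dual of `Z` is. -/

set_option autoImplicit false

open scoped ZeroAtInfty
open Set Filter Topology Pool.Agent.Helper94.SR

namespace Pool.Agent.Helper19.KT

variable {Z : Type*} [NormedAddCommGroup Z] [NormedSpace ℝ Z]

/-- evaluation -/
noncomputable def dcE (i : ℕ) : C₀(ℕ, Z) →L[ℝ] Z :=
  LinearMap.mkContinuous
    { toFun := fun x => x i
      map_add' := fun _ _ => rfl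
      map_smul' := fun _ _ => rfl } 1 (fun x => by simpa using c0_apply_le x i)

theorem dcE_apply (i : ℕ) (x : C₀(ℕ, Z)) : dcE i x = x i := rfl

/-- one coordinate -/
noncomputable def dcS (i : ℕ) : Z →L[ℝ] C₀(ℕ, Z) :=
  LinearMap.mkContinuous
    { toFun := fun z => mk0 (fun n => if n = i then z else 0) (by
        intro ε hε
        refine (Set.finite_singleton i).subset ?_
        intro n hn
        by_contra h
        have h' : n ≠ i := h
        simp only [Set.mem_ofPred_eq, if_neg h', norm_zero] at hn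
        linarith)
      map_add' := by
        intro x y
        ext n
        show (if n = i then x + y else 0) = (if n = i then x else 0) + (if n = i then y else 0)
        split_ifs <;> simp
      map_smul' := by
        intro c x
        ext n
        show (if n = i then c • x else 0) = c • (if n = i then x else 0)
        split_ifs <;> simp } 1 (by
    intro z
    rw [one_mul]
    refine (c0_norm_le _ (norm_nonneg z)).2 fun n => ?_
    show ‖(if n = i then z else 0)‖ ≤ ‖z‖
    split_ifs <;> simp)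

theorem dcS_apply (i : ℕ) (z : Z) (n : ℕ) : dcS i z n = if n = i then z else 0 := rfl

/-- truncation -/
noncomputable def dcP (n : ℕ) (x : C₀(ℕ, Z)) : C₀(ℕ, Z) := ∑ i ∈ Finset.range n, dcS i (x i)

theorem dcP_apply (n : ℕ) (x : C₀(ℕ, Z)) (m : ℕ) : dcP n x m = if m < n then x m else 0 := by
  have h : dcP n x m = ∑ i ∈ Finset.range n, dcS i (x i) m := by
    rw [← dcE_apply, dcP, map_sum]
    rfl
  rw [h]
  simp only [dcS_apply]
  by_cases hm : m < n
  · rw [if_pos hm, Finset.sum_eq_single m]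
    · simp
    · intro b _ hb
      rw [if_neg (Ne.symm hb)]
    · intro h1
      exact absurd (Finset.mem_range.2 hm) h1
  · rw [if_neg hm]
    refine Finset.sum_eq_zero fun i hi => ?_
    rw [if_neg]
    rintro rfl
    exact hm (Finset.mem_range.1 hi)

theorem dcP_tend (x : C₀(ℕ, Z)) {ε : ℝ} (hε : 0 < ε) : ∃ n, ‖x - dcP n x‖ ≤ ε := by
  obtain ⟨b, hb⟩ := (c0_finite x hε).bddAbove
  refine ⟨b + 1, (c0_norm_le _ hε.le).2 fun m => ?_⟩
  show ‖x m - dcP (b + 1) x m‖ ≤ ε
  rw [dcP_apply]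
  by_cases hm : m < b + 1
  · rw [if_pos hm, sub_self, norm_zero]; exact hε.le
  · rw [if_neg hm, sub_zero]
    by_contra h
    have := hb (show m ∈ {γ | ε ≤ ‖x γ‖} from (not_le.1 h).le)
    omega

theorem dc_key (f : StrongDual ℝ C₀(ℕ, Z)) {ε : ℝ} (hε : 0 < ε) :
    ∃ n, ∀ y : C₀(ℕ, Z), ‖y‖ = 1 → ‖f (y - dcP n y)‖ ≤ ε := by
  obtain ⟨x0, hx0, hfx0⟩ := f.exists_lt_apply_of_lt_opNorm (r := ‖f‖ - ε / 2) (by linarith)
  obtain ⟨x, hx, hfx⟩ : ∃ x : C₀(ℕ, Z), ‖x‖ ≤ 1 ∧ ‖f‖ - ε / 2 < f x := by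
    rcases le_total 0 (f x0) with h | h
    · refine ⟨x0, hx0.le, ?_⟩
      rwa [Real.norm_of_nonneg h] at hfx0
    · refine ⟨-x0, by rw [norm_neg]; exact hx0.le, ?_⟩
      rw [Real.norm_of_nonpos h] at hfx0
      rw [map_neg]; exact hfx0
  have hf0 : 0 ≤ ‖f‖ := norm_nonneg f
  obtain ⟨n, hn⟩ := dcP_tend x (ε := ε / (2 * (‖f‖ + 1))) (by positivity)
  have h1 : ‖f‖ - ε < f (dcP n x) := by
    have h2 : ‖f (x - dcP n x)‖ ≤ ε / 2 := by
      calc ‖f (x - dcP n x)‖ ≤ ‖f‖ * ‖x - dcP n x‖ := f.le_opNorm _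
        _ ≤ (‖f‖ + 1) * (ε / (2 * (‖f‖ + 1))) :=
          mul_le_mul (by linarith) hn (norm_nonneg _) (by linarith)
        _ = ε / 2 := by field_simp
    rw [map_sub, Real.norm_eq_abs, abs_le] at h2
    linarith [h2.2]
  refine ⟨n, fun y hy => ?_⟩
  have key : ∀ s : ℝ, |s| = 1 → s * f (y - dcP n y) ≤ ε := by
    intro s hs
    have hz : ‖dcP n x + s • (y - dcP n y)‖ ≤ 1 := by
      refine (c0_norm_le _ zero_le_one).2 fun m => ?_
      show ‖dcP n x m + s • (y m - dcP n y m)‖ ≤ 1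
      rw [dcP_apply, dcP_apply]
      by_cases hm : m < n
      · rw [if_pos hm, if_pos hm, sub_self, smul_zero, add_zero]
        exact (c0_apply_le x m).trans hx
      · rw [if_neg hm, if_neg hm, sub_zero, zero_add, norm_smul, Real.norm_eq_abs, hs, one_mul]
        exact (c0_apply_le y m).trans hy.le
    have h3 : f (dcP n x + s • (y - dcP n y)) ≤ ‖f‖ := by
      calc f (dcP n x + s • (y - dcP n y)) ≤ ‖f (dcP n x + s • (y - dcP n y))‖ :=
            Real.le_norm_self _
        _ ≤ ‖f‖ * ‖dcP n x + s • (y - dcP n y)‖ := f.le_opNorm _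
        _ ≤ ‖f‖ * 1 := mul_le_mul_of_nonneg_left hz hf0
        _ = ‖f‖ := mul_one _
    rw [map_add, map_smul, smul_eq_mul] at h3
    linarith
  rw [Real.norm_eq_abs, abs_le]
  have k1 := key 1 (by simp)
  have k2 := key (-1) (by simp)
  constructor <;> linarith

/-- functionals of finitely many coordinates -/
noncomputable def dcF (n : ℕ) (g : Fin n → StrongDual ℝ Z) : StrongDual ℝ C₀(ℕ, Z) :=
  ∑ i : Fin n, (g i).comp (dcE (i : ℕ))

theorem dcF_cont (n : ℕ) : Continuous (dcF n : (Fin n → StrongDual ℝ Z) → _) := by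
  unfold dcF
  refine continuous_finset_sum _ fun i _ => ?_
  exact (continuous_apply i).clm_comp continuous_const

theorem dcF_apply (f : StrongDual ℝ C₀(ℕ, Z)) (n : ℕ) (y : C₀(ℕ, Z)) :
    dcF n (fun i => f.comp (dcS (i : ℕ))) y = f (dcP n y) := by
  unfold dcF dcP
  rw [map_sum, ← Fin.sum_univ_eq_sum_range (fun i => f (dcS i (y i))) n]
  simp only [ContinuousLinearMap.sum_apply]
  rfl

theorem stDC0.{u} : Pool.Agent.Helper8.KT.ST_DC0.{u} := by
  intro Z _ _ _
  have hs : TopologicalSpace.IsSeparable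
      (closure (⋃ n : ℕ, Set.range (dcF n : (Fin n → StrongDual ℝ Z) → _))) :=
    (TopologicalSpace.IsSeparable.iUnion fun n =>
      TopologicalSpace.isSeparable_range (dcF_cont n)).closure
  have hu : closure (⋃ n : ℕ, Set.range (dcF n : (Fin n → StrongDual ℝ Z) → _)) = Set.univ := by
    rw [Set.eq_univ_iff_forall]
    intro f
    refine (Metric.mem_closure_iff (α := StrongDual ℝ C₀(ℕ, Z))).2 fun ε hε => ?_
    obtain ⟨n, hn⟩ := dc_key f (half_pos hε)
    refine ⟨dcF n (fun i => f.comp (dcS (i : ℕ))), Set.mem_iUnion.2 ⟨n, Set.mem_range_self _⟩, ?_⟩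
    have h1 : ‖f - dcF n (fun i => f.comp (dcS (i : ℕ)))‖ ≤ ε / 2 := by
      refine ContinuousLinearMap.opNorm_le_of_unit_norm (half_pos hε).le ?_
      intro y hy
      have := hn y hy
      rwa [map_sub, ← dcF_apply] at this
    have h2 : dist f (dcF n (fun i => f.comp (dcS (i : ℕ)))) =
        ‖f - dcF n (fun i => f.comp (dcS (i : ℕ)))‖ :=
      dist_eq_norm (E := StrongDual ℝ C₀(ℕ, Z)) f _
    exact lt_of_eq_of_lt h2 (lt_of_le_of_lt h1 (half_lt_self hε))
  rw [hu] at hs
  exact TopologicalSpace.isSeparable_univ_iff.1 hs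

end Pool.Agent.Helper19.KT
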